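import Pool.Agent.X90.DF.Main

/-!
# Sparse relations between double zeta values: the theorem
-/

set_option autoImplicit false

namespace Pool.Agent.X90.DF

open Finset Pool.Agent.Y760.ZF
open Pool.Agent.Y760.ZG (mz)
open Pool.Agent.X90.DB (Ad)
open Pool.Agent.X90.DC (Zt Zt_mul Zt_nil Zt_one powers mz_stuffle)
open Pool.Agent.X90.DD (mz_ne)

lemma mz_ne_one {a : ℕ} (ha : 2 ≤ a) : mz [a] ≠ 0 := mz_ne (Or.inr ⟨ha, by simp⟩)

/-- **first stage** -/
lemma stageA {A M n t : ℕ} {κ C1 H : ℝ} (hA : 1 ≤ A) (hH0 : 0 ≤ H)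
    (hdt : ∀ E : Matrix (Fin (t + 1)) (Fin (t + 1)) (List ℕ →₀ ℤ),
      (∀ i j, (E i j).support.card ≤ M + A + 1) →
      (∀ i j, ∀ w ∈ (E i j).support, Cl n (κ * n) 2 w) → (∀ i j w, |((E i j) w : ℝ)| ≤ C1 ^ n) →
      (Matrix.of fun i j => vl mz (E i j)).det = 0 →
      ∀ ts : List ℂ, (Matrix.of fun i j => vl (Zt ts) (E i j)).det = 0)
    (K' : Fin (t + 1) → ℕ) (hgap : ∀ i j, i < j → K' i + A < K' j)
    (hK : ∀ i, 2 * A + 2 ≤ K' i ∧ n + A ≤ K' i ∧ (K' i : ℝ) ≤ κ * n)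
    (c : Fin (t + 1) → ℕ → ℤ) (c0 : Fin (t + 1) → ℤ) (a : Fin t ↪o ℕ)
    (haA : ∀ j, a j ∈ Icc 2 A) (ha : ∀ i, ∀ x ∈ Icc 2 A, c i x ≠ 0 → ∃ j, a j = x)
    (hane : ∀ i j, c i (a j) ≠ 0)
    (hM : ∀ i, ((Ioo 1 (K' i)).filter fun x => A < x ∧ c i x ≠ 0).card ≤ M)
    (hn : ∀ i, ∀ x ∈ Ioo 1 (K' i), A < x → c i x ≠ 0 → n ≤ x)
    (hC : ∀ i, ∀ x ∈ Ioo 1 (K' i), |(c i x : ℝ)| ≤ H) (hC0 : ∀ i, |(c0 i : ℝ)| ≤ H)
    (hH : (A + 2) * H ≤ C1 ^ n)
    (hrel : ∀ i, ∑ x ∈ Ioo 1 (K' i), (c i x : ℝ) * mz [x, K' i - x] + c0 i * mz [K' i] = 0) :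
    (∀ x ∈ Ioo 0 (K' 0), dd A (K' 0) (c 0) x = 0) ∧ ee A (c 0) (c0 0) = 0 := by
  classical
  have hH1 : H ≤ C1 ^ n := by
    have : (0 : ℝ) ≤ A := Nat.cast_nonneg A
    nlinarith
  have hddH : ∀ i, ∀ x ∈ Ioo 0 (K' i), |((dd A (K' i) (c i) x : ℤ) : ℝ)| ≤ (A + 2) * H := by
    intro i x hx
    rw [mem_Ioo] at hx
    have h1 : |((if A < x then c i x else 0 : ℤ) : ℝ)| ≤ H := by
      split_ifs with h
      · exact hC i x (mem_Ioo.2 ⟨by omega, hx.2⟩)
      · rw [Int.cast_zero, abs_zero]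
        exact hH0
    have h2 : |((if K' i - x ∈ Icc 2 A then c i (K' i - x) else 0 : ℤ) : ℝ)| ≤ H := by
      split_ifs with h
      · rw [mem_Icc] at h
        exact hC i _ (mem_Ioo.2 ⟨by omega, by omega⟩)
      · rw [Int.cast_zero, abs_zero]
        exact hH0
    rw [dd, Int.cast_sub]
    refine (abs_sub _ _).trans ?_
    have : (0 : ℝ) ≤ A := Nat.cast_nonneg A
    nlinarith
  have heeH : ∀ i, |((ee A (c i) (c0 i) : ℤ) : ℝ)| ≤ (A + 2) * H := by
    intro i
    rw [ee]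
    push_cast
    refine (abs_sub _ _).trans ?_
    have h1 : |∑ x ∈ Icc 2 A, (c i x : ℝ)| ≤ A * H := by
      calc |∑ x ∈ Icc 2 A, (c i x : ℝ)| ≤ ∑ x ∈ Icc 2 A, |(c i x : ℝ)| := abs_sum_le_sum_abs _ _
        _ ≤ ∑ _x ∈ Icc 2 A, H := sum_le_sum fun x hx => by
            rw [mem_Icc] at hx
            have := (hK i).1
            exact hC i x (mem_Ioo.2 ⟨by omega, by omega⟩)
        _ = ((A + 1 - 2 : ℕ) : ℝ) * H := by rw [sum_const, Nat.card_Icc, nsmul_eq_mul]
        _ ≤ A * H := by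
            refine mul_le_mul_of_nonneg_right ?_ hH0
            exact_mod_cast (by omega : A + 1 - 2 ≤ A)
    have := hC0 i
    nlinarith
  have hCl1 : ∀ i, Cl n (κ * n) 2 [K' i] := by
    intro i
    obtain ⟨h1, h2, h3⟩ := hK i
    refine ⟨by simp, fun m hm => ?_, fun m hm => ?_⟩
    · rw [List.mem_singleton] at hm
      subst hm
      exact ⟨by omega, h3⟩
    · simp only [List.head?_cons, Option.mem_some_iff] at hm
      omega
  have hCl2 : ∀ i, ∀ x ∈ Ioo 0 (K' i), n ≤ x → Cl n (κ * n) 2 [x, K' i - x] := by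
    intro i x hx hnx
    rw [mem_Ioo] at hx
    obtain ⟨h1, h2, h3⟩ := hK i
    refine ⟨by simp, fun m hm => ?_, fun m hm => ?_⟩
    · simp only [List.mem_cons, List.not_mem_nil, or_false] at hm
      rcases hm with rfl | rfl
      · exact ⟨by omega, le_trans (by exact_mod_cast hx.2.le) h3⟩
      · exact ⟨by omega, le_trans (by exact_mod_cast Nat.sub_le _ _) h3⟩
    · simp only [List.head?_cons, Option.mem_some_iff] at hm
      omega
  have hCl3 : ∀ i j, Cl n (κ * n) 2 [K' i - a j] := by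
    intro i j
    obtain ⟨h1, h2, h3⟩ := hK i
    have h4 := mem_Icc.1 (haA j)
    refine ⟨by simp, fun m hm => ?_, fun m hm => ?_⟩
    · rw [List.mem_singleton] at hm
      subst hm
      exact ⟨by omega, le_trans (by exact_mod_cast Nat.sub_le _ _) h3⟩
    · simp only [List.head?_cons, Option.mem_some_iff] at hm
      omega
  -- the determinants
  have hall := hdt (Em K' a (fun i j => c i (a j)) fun i =>
    Xf (K' i) (dd A (K' i) (c i)) (ee A (c i) (c0 i))) (fun i j => by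
      refine Fin.lastCases ?_ (fun j => ?_) j
      · simp only [Em, Fin.snoc_last]
        exact (card_Xf _ _ _).trans (Nat.add_le_add_right (card_dd hA (c i) (hM i)) 1)
      · simp only [Em, Fin.snoc_castSucc]
        refine (card_le_card Finsupp.support_single_subset).trans ?_
        rw [card_singleton]
        omega) (fun i j => by
      refine Fin.lastCases ?_ (fun j => ?_) j
      · simp only [Em, Fin.snoc_last]
        intro w hw
        have h1 := supp_Xf _ _ _ hw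
        rw [mem_insert, mem_image] at h1
        rcases h1 with rfl | ⟨x, hx, rfl⟩
        · exact hCl1 i
        · rw [mem_filter] at hx
          refine hCl2 i x hx.1 ?_
          obtain ⟨hx1, hx2⟩ := hx
          rw [mem_Ioo] at hx1
          rw [dd] at hx2
          by_cases h3 : K' i - x ∈ Icc 2 A
          · rw [mem_Icc] at h3
            have := (hK i).2.1
            omega
          · rw [if_neg h3, sub_zero] at hx2
            by_cases h4 : A < x
            · rw [if_pos h4] at hx2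
              exact hn i x (mem_Ioo.2 ⟨by omega, hx1.2⟩) h4 hx2
            · rw [if_neg h4] at hx2
              exact absurd rfl hx2
      · simp only [Em, Fin.snoc_castSucc]
        intro w hw
        rw [mem_singleton.1 (Finsupp.support_single_subset hw)]
        exact hCl3 i j) (fun i j w => by
      refine Fin.lastCases ?_ (fun j => ?_) j
      · simp only [Em, Fin.snoc_last]
        exact (abs_Xf _ _ _ w (by positivity) (hddH i) (heeH i)).trans hH
      · simp only [Em, Fin.snoc_castSucc]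
        rw [Finsupp.single_apply]
        split_ifs
        · refine (hC i _ ?_).trans hH1
          have h1 := mem_Icc.1 (haA j)
          have h2 := (hK i).1
          exact mem_Ioo.2 ⟨by omega, by omega⟩
        · rw [Int.cast_zero, abs_zero]
          exact hH0.trans hH1) (by
      rw [← Matrix.exists_mulVec_eq_zero_iff]
      refine ⟨Fin.snoc (fun j : Fin t => mz [a j]) 1, ?_, ?_⟩
      · intro h0
        have h1 := congrFun h0 (Fin.last t)
        simp only [Fin.snoc_last, Pi.zero_apply] at h1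
        exact one_ne_zero h1
      · funext i
        rw [Matrix.mulVec, dotProduct, Fin.sum_univ_castSucc]
        simp only [Matrix.of_apply, Em, Fin.snoc_castSucc, Fin.snoc_last, vl_single, mul_one]
        exact row_id hA (hK i).1 (c i) (c0 i) a (ha i) haA (hrel i))
  -- the prescribed values
  set E : Finset ℕ := univ.image fun x : Fin (t + 1) × Fin t => K' x.1 - a x.2 with hE
  set τ : ℕ → ℂ := fun m => if ∃ j, m = K' j.succ - a j then 1 else 0 with hτ
  have hinj : ∀ i i' j j', K' i - a j = K' i' - a j' → i = i' ∧ j = j' := by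
    intro i i' j j' h
    have h1 := mem_Icc.1 (haA j)
    have h2 := mem_Icc.1 (haA j')
    have h3 := (hK i).1
    have h4 := (hK i').1
    rcases lt_trichotomy i i' with h5 | h5 | h5
    · have := hgap _ _ h5
      omega
    · subst h5
      refine ⟨rfl, a.injective ?_⟩
      omega
    · have := hgap _ _ h5
      omega
  have hE1 : ∀ m ∈ E, 1 ≤ m := by
    intro m hm
    rw [hE, mem_image] at hm
    obtain ⟨x, -, rfl⟩ := hm
    have h1 := mem_Icc.1 (haA x.2)
    have h3 := (hK x.1).1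
    omega
  have hbig : ∀ i j, i ≠ 0 → K' 0 < K' i - a j := by
    intro i j hi
    have h1 := hgap 0 i (Fin.pos_iff_ne_zero.2 hi)
    have h2 := mem_Icc.1 (haA j)
    omega
  have hkE : K' 0 ∉ E := by
    intro hm
    rw [hE, mem_image] at hm
    obtain ⟨x, -, hx⟩ := hm
    have h1 := mem_Icc.1 (haA x.2)
    have h3 := (hK x.1).1
    by_cases h : x.1 = 0
    · rw [h] at hx h3
      omega
    · have := hbig x.1 x.2 h
      omega
  have hvan : ∀ ts : List ℂ, (∀ m ∈ E, Zt ts [m] = τ m) →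
      vl (Zt ts) (Xf (K' 0) (dd A (K' 0) (c 0)) (ee A (c 0) (c0 0))) = 0 := by
    intro ts hts
    refine stage1 K' a (fun i j => c i (a j)) hane (fun i =>
      Xf (K' i) (dd A (K' i) (c i)) (ee A (c i) (c0 i))) ts (hall ts) fun i j => ?_
    rw [hts _ (mem_image.2 ⟨(i, j), mem_univ _, rfl⟩)]
    simp only [hτ]
    by_cases h : i = j.succ
    · rw [if_pos h, if_pos ⟨j, by rw [h]⟩]
    · rw [if_neg h, if_neg]
      rintro ⟨j', hj'⟩
      obtain ⟨h1, h2⟩ := hinj _ _ _ _ hj'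
      rw [h1, h2] at h
      exact h rfl
  have hsym := sym_of (K' 0) _ _ E τ hE1 hvan
  refine zero_of (K' 0) (by have := (hK 0).1; omega) _ _ E τ hE1 hkE (fun x hx hxE => ?_) hvan hsym
  rw [hE, mem_image] at hxE
  obtain ⟨⟨i, j⟩, -, rfl⟩ := hxE
  rw [mem_Ioo] at hx
  by_cases h : i = 0
  · subst h
    have h1 := mem_Icc.1 (haA j)
    have h3 := (hK 0).1
    rw [hsym _ (mem_Ioo.2 hx)]
    simp only
    rw [Nat.sub_sub_self (by omega), dd, if_neg (by omega), if_neg, sub_zero]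
    rw [mem_Icc]
    omega
  · have := hbig i j h
    simp only at hx
    omega

/-- **second stage** -/
lemma stageB {A n t : ℕ} {κ C1 H : ℝ} (hA : 1 ≤ A) (hH0 : 0 ≤ H) (m : ℕ) (hm : 1 ≤ m) (ht : 0 < t)
    (hdt : ∀ E : Matrix (Fin t) (Fin t) (List ℕ →₀ ℤ),
      (∀ i j, (E i j).support.card ≤ m) →
      (∀ i j, ∀ w ∈ (E i j).support, Cl n (κ * n) 2 w) → (∀ i j w, |((E i j) w : ℝ)| ≤ C1 ^ n) →
      (Matrix.of fun i j => vl mz (E i j)).det = 0 →
      ∀ ts : List ℂ, (Matrix.of fun i j => vl (Zt ts) (E i j)).det = 0)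
    (K' : Fin t → ℕ) (hgap : ∀ i j, i < j → K' i + A < K' j)
    (hK : ∀ i, 2 * A + 2 ≤ K' i ∧ n + A ≤ K' i ∧ (K' i : ℝ) ≤ κ * n)
    (c : Fin t → ℕ → ℤ) (c0 : Fin t → ℤ) (a : Fin t ↪o ℕ)
    (haA : ∀ j, a j ∈ Icc 2 A) (ha : ∀ i, ∀ x ∈ Icc 2 A, c i x ≠ 0 → ∃ j, a j = x)
    (hane : ∀ i j, c i (a j) ≠ 0)
    (hC : ∀ i, ∀ x ∈ Ioo 1 (K' i), |(c i x : ℝ)| ≤ H) (hH : H ≤ C1 ^ n)
    (hrel : ∀ i, ∑ x ∈ Ioo 1 (K' i), (c i x : ℝ) * mz [x, K' i - x] + c0 i * mz [K' i] = 0)
    (hd0 : ∀ i, ∀ x ∈ Ioo 0 (K' i), dd A (K' i) (c i) x = 0)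
    (he0 : ∀ i, ee A (c i) (c0 i) = 0) : False := by
  classical
  have hall := hdt (fun i j => Finsupp.single [K' i - a j] (c i (a j))) (fun i j => by
      refine (card_le_card Finsupp.support_single_subset).trans ?_
      rw [card_singleton]
      exact hm) (fun i j w hw => by
      rw [mem_singleton.1 (Finsupp.support_single_subset hw)]
      obtain ⟨h1, h2, h3⟩ := hK i
      have h4 := mem_Icc.1 (haA j)
      refine ⟨by simp, fun m hm => ?_, fun m hm => ?_⟩
      · rw [List.mem_singleton] at hm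
        subst hm
        exact ⟨by omega, le_trans (by exact_mod_cast Nat.sub_le _ _) h3⟩
      · simp only [List.head?_cons, Option.mem_some_iff] at hm
        omega) (fun i j w => by
      rw [Finsupp.single_apply]
      split_ifs
      · refine (hC i _ ?_).trans hH
        have h1 := mem_Icc.1 (haA j)
        have h2 := (hK i).1
        exact mem_Ioo.2 ⟨by omega, by omega⟩
      · rw [Int.cast_zero, abs_zero]
        exact hH0.trans hH) (by
      rw [← Matrix.exists_mulVec_eq_zero_iff]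
      refine ⟨fun j : Fin t => mz [a j], ?_, ?_⟩
      · intro h0
        have h1 := congrFun h0 ⟨0, ht⟩
        exact mz_ne_one (mem_Icc.1 (haA _)).1 h1
      · funext i
        rw [Matrix.mulVec, dotProduct]
        simp only [Matrix.of_apply, vl_single]
        have h1 := row_id hA (hK i).1 (c i) (c0 i) a (ha i) haA (hrel i)
        have hX : vl mz (Xf (K' i) (dd A (K' i) (c i)) (ee A (c i) (c0 i))) = 0 := by
          rw [vl_Xf, he0 i, Int.cast_zero, zero_mul, add_zero]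
          exact sum_eq_zero fun x hx => by rw [hd0 i x hx, Int.cast_zero, zero_mul]
        rw [hX, add_zero] at h1
        exact h1)
  have hinj : ∀ i i' j j', K' i - a j = K' i' - a j' → i = i' ∧ j = j' := by
    intro i i' j j' h
    have h1 := mem_Icc.1 (haA j)
    have h2 := mem_Icc.1 (haA j')
    have h3 := (hK i).1
    have h4 := (hK i').1
    rcases lt_trichotomy i i' with h5 | h5 | h5
    · have := hgap _ _ h5
      omega
    · subst h5
      refine ⟨rfl, a.injective ?_⟩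
      omega
    · have := hgap _ _ h5
      omega
  obtain ⟨B, hB⟩ := powers (univ.image fun x : Fin t × Fin t => K' x.1 - a x.2)
    (fun m => if ∃ j, m = K' j - a j then 1 else 0) (fun m hm => by
      rw [mem_image] at hm
      obtain ⟨x, -, rfl⟩ := hm
      have h1 := mem_Icc.1 (haA x.2)
      have h3 := (hK x.1).1
      omega)
  have h1 := hall B
  have h2 : (Matrix.of fun i j => vl (Zt B) (Finsupp.single [K' i - a j] (c i (a j)))) =
      Matrix.diagonal fun i => (c i (a i) : ℂ) := by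
    ext i j
    rw [Matrix.of_apply, vl_single, Zt_one, hB _ (mem_image.2 ⟨(i, j), mem_univ _, rfl⟩),
      Matrix.diagonal_apply]
    by_cases h : i = j
    · rw [if_pos h, if_pos ⟨i, by rw [h]⟩, mul_one, h]
    · rw [if_neg h, if_neg, mul_zero]
      rintro ⟨j', hj'⟩
      obtain ⟨h3, h4⟩ := hinj _ _ _ _ hj'
      exact h (h3.trans h4.symm)
  rw [h2, Matrix.det_diagonal, prod_eq_zero_iff] at h1
  obtain ⟨i, -, hi⟩ := h1
  exact hane i i (by exact_mod_cast hi)

/-- **sparse relations are rare** -/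
theorem sparse (A M κ : ℕ) (hA : 1 ≤ A) (δ C : ℝ) (hδ : 0 < δ) : ∃ N0 : ℕ, ∀ N : ℕ, N0 ≤ N →
    ∀ B : Finset ℕ, (∀ k ∈ B, (N ≤ k ∧ k ≤ κ * N) ∧ Exc A M δ C k) →
      B.card ≤ 2 ^ A * (A ^ 2 - 1) := by
  classical
  obtain ⟨q0, hq0⟩ := exists_nat_gt (1 / δ)
  set q : ℕ := q0 + 2 with hq
  have hqδ : ∀ x k : ℕ, ¬ (x : ℝ) < δ * k → k ≤ q * x := by
    intro x k h
    rw [not_lt] at h
    have h1 : (1 : ℝ) ≤ δ * q := by
      rw [div_lt_iff₀ hδ] at hq0
      have : (q : ℝ) = q0 + 2 := by rw [hq]; push_cast; ring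
      rw [this]
      nlinarith
    have h2 : (k : ℝ) ≤ q * x := by
      have hk0 : (0 : ℝ) ≤ k := Nat.cast_nonneg k
      have hq1 : (0 : ℝ) ≤ q := Nat.cast_nonneg q
      calc (k : ℝ) = 1 * k := (one_mul _).symm
        _ ≤ (δ * q) * k := mul_le_mul_of_nonneg_right h1 hk0
        _ = q * (δ * k) := by ring
        _ ≤ q * x := mul_le_mul_of_nonneg_left h hq1
    exact_mod_cast h2
  set m0 : ℕ := 2 * κ * q with hm0
  set C2 : ℝ := 1 + |C| with hC2
  have hC21 : 1 ≤ C2 := by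
    rw [hC2]
    exact le_add_of_nonneg_right (abs_nonneg _)
  set C1 : ℝ := (A + 2) * C2 ^ m0 with hC1
  have h1 : ∀ t : ℕ, ∃ n0 : ℕ, ∀ n : ℕ, n0 ≤ n →
    ∀ E : Matrix (Fin t) (Fin t) (List ℕ →₀ ℤ), (∀ i j, (E i j).support.card ≤ M + A + 1) →
    (∀ i j, ∀ w ∈ (E i j).support, Cl n (m0 * n) 2 w) → (∀ i j w, |((E i j) w : ℝ)| ≤ C1 ^ n) →
    (Matrix.of fun i j => vl mz (E i j)).det = 0 →
    ∀ ts : List ℂ, (Matrix.of fun i j => vl (Zt ts) (E i j)).det = 0 := fun t =>
      det_transfer t (M + A + 1) 2 m0 C1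
  choose n0 hn0 using h1
  set n1 : ℕ := ∑ t ∈ range (A + 2), n0 t with hn1
  refine ⟨q * (n1 + 2 * A + 2), fun N hN B hB => ?_⟩
  set n : ℕ := N / q with hn
  have hq2 : 2 ≤ q := by omega
  have hqn1 : q * n ≤ N := Nat.mul_div_le N q
  have hqn2 : N < q * (n + 1) := by
    have := Nat.lt_mul_div_succ N (by omega : 0 < q)
    exact this
  have hnn : n1 + 2 * A + 2 ≤ n := by
    rw [hn, Nat.le_div_iff_mul_le (by omega)]
    rw [mul_comm]
    exact hN
  have hnt : ∀ t, t ≤ A + 1 → n0 t ≤ n := by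
    intro t ht
    have := single_le_sum (f := n0) (fun _ _ => Nat.zero_le _) (mem_range.2 (by omega : t < A + 2))
    omega
  -- the bounds
  have hNn : N ≤ 2 * q * n := by
    have h2 : q * (n + 1) ≤ q * (2 * n) := Nat.mul_le_mul_left _ (by omega)
    calc N ≤ q * (n + 1) := hqn2.le
      _ ≤ q * (2 * n) := h2
      _ = 2 * q * n := by ring
  have hκN : κ * N ≤ m0 * n := by
    calc κ * N ≤ κ * (2 * q * n) := Nat.mul_le_mul_left _ hNn
      _ = m0 * n := by rw [hm0]; ring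
  have h2n : 2 * n ≤ N := (Nat.mul_le_mul_right n hq2).trans hqn1
  set H : ℝ := C2 ^ (m0 * n) with hH
  have hH0 : 0 ≤ H := by positivity
  have hHC1 : ((A : ℝ) + 2) * H ≤ C1 ^ n := by
    rw [hC1, mul_pow, ← pow_mul, hH]
    refine mul_le_mul_of_nonneg_right ?_ (by positivity)
    refine le_self_pow₀ ?_ (by omega)
    have : (0 : ℝ) ≤ A := Nat.cast_nonneg A
    linarith
  have hHC1' : H ≤ C1 ^ n := by
    refine le_trans ?_ hHC1
    have : (0 : ℝ) ≤ A := Nat.cast_nonneg A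
    nlinarith
  have hCk : ∀ k, k ≤ κ * N → ∀ z : ℝ, |z| ≤ C ^ k → |z| ≤ H := by
    intro k hk z hz
    calc |z| ≤ C ^ k := hz
      _ ≤ |C| ^ k := (le_abs_self _).trans (abs_pow _ _).le
      _ ≤ C2 ^ k := pow_le_pow_left₀ (abs_nonneg _) (by rw [hC2]; linarith) _
      _ ≤ C2 ^ (m0 * n) := pow_le_pow_right₀ hC21 (hk.trans hκN)
  -- the data
  have hdat : ∀ k, k ∈ B → ∃ (c : ℕ → ℤ) (c0 : ℤ), (∃ x ∈ Ioo 1 k, c x ≠ 0) ∧
      ((Ioo 1 k).filter fun x => A < x ∧ c x ≠ 0).card ≤ M ∧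
      (∀ x ∈ Ioo 1 k, A < x → (x : ℝ) < δ * k → c x = 0) ∧
      (∀ x ∈ Ioo 1 k, |(c x : ℝ)| ≤ C ^ k) ∧ |(c0 : ℝ)| ≤ C ^ k ∧
      ∑ x ∈ Ioo 1 k, (c x : ℝ) * mz [x, k - x] + c0 * mz [k] = 0 := fun k hk => (hB k hk).2
  choose! c c0 hc1 hc2 hc3 hc4 hc5 hc6 using hdat
  by_contra hcon
  rw [not_le] at hcon
  set T : ℕ → Finset ℕ := fun k => (Icc 2 A).filter fun x => c k x ≠ 0 with hT
  obtain ⟨T0, hT0, hcard⟩ := exists_lt_card_fiber_of_mul_lt_card_of_maps_to (s := B)
    (t := (Icc 2 A).powerset) (f := T) (n := 2 * (A - 1) * (A + 1)) (fun k _ => by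
      rw [mem_powerset]
      exact filter_subset _ _) (by
      refine lt_of_le_of_lt ?_ hcon
      rw [card_powerset, Nat.card_Icc]
      obtain ⟨b, rfl⟩ : ∃ b, A = b + 1 := ⟨A - 1, by omega⟩
      have e1 : b + 1 + 1 - 2 = b := by omega
      have e2 : (b + 1) ^ 2 - 1 = b * (b + 2) := by
        have : (b + 1) ^ 2 = b * (b + 2) + 1 := by ring
        omega
      rw [e1, e2, Nat.add_sub_cancel, pow_succ]
      have e3 : 2 ^ b * (2 * b * (b + 1 + 1)) = 2 ^ b * 2 * (b * (b + 2)) := by ring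
      rw [e3])
  rw [mem_powerset] at hT0
  set BT : Finset ℕ := B.filter fun k => T k = T0 with hBT
  set t : ℕ := T0.card with ht
  have htA : t ≤ A - 1 := by
    have := card_le_card hT0
    rw [Nat.card_Icc] at this
    omega
  have hcard2 : 2 * t * (A + 1) < BT.card := by
    refine lt_of_le_of_lt ?_ hcard
    exact Nat.mul_le_mul_right _ (Nat.mul_le_mul_left _ htA)
  set f : Fin BT.card ↪o ℕ := BT.orderEmbOfFin rfl with hf
  set a : Fin t ↪o ℕ := T0.orderEmbOfFin rfl with ha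
  have haT : ∀ j, a j ∈ T0 := fun j => T0.orderEmbOfFin_mem rfl j
  have haA : ∀ j, a j ∈ Icc 2 A := fun j => hT0 (haT j)
  have hidx : ∀ i : ℕ, i ≤ 2 * t → i * (A + 1) < BT.card := by
    intro i hi
    exact lt_of_le_of_lt (Nat.mul_le_mul_right _ hi) hcard2
  -- the chosen weights
  obtain ⟨K, hK⟩ : ∃ K : ℕ → ℕ, ∀ i (hi : i ≤ 2 * t), K i = f ⟨i * (A + 1), hidx i hi⟩ :=
    ⟨fun i => if hi : i ≤ 2 * t then f ⟨i * (A + 1), hidx i hi⟩ else 0, fun i hi => dif_pos hi⟩
  have hKB : ∀ i, i ≤ 2 * t → K i ∈ B ∧ T (K i) = T0 := by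
    intro i hi
    rw [hK i hi]
    exact mem_filter.1 (BT.orderEmbOfFin_mem rfl ⟨i * (A + 1), hidx i hi⟩)
  have hKgap : ∀ i j, i < j → j ≤ 2 * t → K i + A < K j := by
    intro i j hij hj
    rw [hK i (by omega), hK j hj]
    have h2 : (i + 1) * (A + 1) ≤ j * (A + 1) := Nat.mul_le_mul_right _ hij
    have h3 := strict_gap f (j * (A + 1) - i * (A + 1)) ⟨i * (A + 1), hidx i (by omega)⟩
      ⟨j * (A + 1), hidx j hj⟩ (by simp only; rw [add_mul] at h2; omega)
    rw [add_mul] at h2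
    omega
  have hKb : ∀ i, i ≤ 2 * t → 2 * A + 2 ≤ K i ∧ n + A ≤ K i ∧ (K i : ℝ) ≤ (m0 : ℝ) * n := by
    intro i hi
    obtain ⟨h2, h3⟩ := (hB _ (hKB i hi).1).1
    refine ⟨by omega, by omega, ?_⟩
    exact_mod_cast h3.trans hκN
  have hKa : ∀ i, i ≤ 2 * t → ∀ x ∈ Icc 2 A, c (K i) x ≠ 0 → ∃ j, a j = x := by
    intro i hi x hx hcx
    have h2 : x ∈ T0 := by
      rw [← (hKB i hi).2]
      exact mem_filter.2 ⟨hx, hcx⟩
    have h3 : x ∈ Set.range a := by
      rw [ha, T0.range_orderEmbOfFin rfl]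
      exact h2
    exact h3
  have hKne : ∀ i, i ≤ 2 * t → ∀ j, c (K i) (a j) ≠ 0 := by
    intro i hi j
    have h2 := haT j
    rw [← (hKB i hi).2] at h2
    exact (mem_filter.1 h2).2
  have hKn : ∀ i, i ≤ 2 * t → ∀ x ∈ Ioo 1 (K i), A < x → c (K i) x ≠ 0 → n ≤ x := by
    intro i hi x hx hAx hcx
    have h2 : ¬ (x : ℝ) < δ * K i := fun h => hcx (hc3 _ (hKB i hi).1 x hx hAx h)
    have h3 := hqδ x (K i) h2
    have h4 := (hB _ (hKB i hi).1).1.1
    by_contra h5
    rw [not_le] at h5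
    have h6 : q * (x + 1) ≤ q * n := Nat.mul_le_mul_left _ h5
    rw [mul_add] at h6
    omega
  -- first stage
  have hA1 : ∀ i, i ≤ t → (∀ x ∈ Ioo 0 (K i), dd A (K i) (c (K i)) x = 0) ∧
      ee A (c (K i)) (c0 (K i)) = 0 := by
    intro i hi
    set ρ : Fin (t + 1) → ℕ := Fin.cons i fun j : Fin t => t + 1 + j with hρ
    have hρ0 : ρ 0 = i := rfl
    have hρs : ∀ j : Fin t, ρ j.succ = t + 1 + j := fun j => rfl
    have hρle : ∀ j, ρ j ≤ 2 * t := by
      intro j
      refine Fin.cases ?_ (fun j => ?_) j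
      · rw [hρ0]
        omega
      · rw [hρs]
        have := j.2
        omega
    have hρlt : ∀ j j', j < j' → ρ j < ρ j' := by
      intro j j' hjj
      induction j' using Fin.cases with
      | zero => exact absurd hjj (Fin.not_lt_zero _)
      | succ j' =>
        induction j using Fin.cases with
        | zero =>
          rw [hρ0, hρs]
          omega
        | succ j =>
          rw [hρs, hρs]
          have := Fin.succ_lt_succ_iff.1 hjj
          rw [Fin.lt_def] at this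
          omega
    exact stageA (A := A) (M := M) (n := n) (κ := m0) (C1 := C1) (H := H) hA hH0
      (hn0 (t + 1) n (hnt _ (by omega))) (fun j => K (ρ j))
      (fun j j' hjj => hKgap _ _ (hρlt _ _ hjj) (hρle _)) (fun j => hKb _ (hρle j))
      (fun j => c (K (ρ j))) (fun j => c0 (K (ρ j))) a haA (fun j => hKa _ (hρle j))
      (fun j => hKne _ (hρle j)) (fun j => hc2 _ (hKB _ (hρle j)).1)
      (fun j => hKn _ (hρle j))
      (fun j x hx => hCk _ (hB _ (hKB _ (hρle j)).1).1.2 _ (hc4 _ (hKB _ (hρle j)).1 x hx))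
      (fun j => hCk _ (hB _ (hKB _ (hρle j)).1).1.2 _ (hc5 _ (hKB _ (hρle j)).1)) hHC1
      (fun j => hc6 _ (hKB _ (hρle j)).1)
  rcases Nat.eq_zero_or_pos t with ht0 | htpos
  · -- no small first arguments
    obtain ⟨h2, -⟩ := hA1 0 (Nat.zero_le _)
    obtain ⟨x, hx, hcx⟩ := hc1 _ (hKB 0 (Nat.zero_le _)).1
    have hTe : T0 = ∅ := card_eq_zero.1 ht0
    have hz : ∀ y ∈ Icc 2 A, c (K 0) y = 0 := by
      intro y hy
      by_contra h3
      have h4 : y ∈ T0 := by
        rw [← (hKB 0 (Nat.zero_le _)).2]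
        exact mem_filter.2 ⟨hy, h3⟩
      rw [hTe] at h4
      exact absurd h4 (notMem_empty y)
    rw [mem_Ioo] at hx
    have h3 := h2 x (mem_Ioo.2 ⟨by omega, hx.2⟩)
    rw [dd] at h3
    have h4 : A < x := by
      by_contra h5
      exact hcx (hz x (mem_Icc.2 ⟨by omega, by omega⟩))
    rw [if_pos h4] at h3
    by_cases h5 : K 0 - x ∈ Icc 2 A
    · rw [if_pos h5, hz _ h5, sub_zero] at h3
      exact hcx h3
    · rw [if_neg h5, sub_zero] at h3
      exact hcx h3
  · -- second stage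
    have hle : ∀ i : Fin t, (i : ℕ) ≤ 2 * t := fun i => by
      have := i.2
      omega
    exact stageB (A := A) (n := n) (κ := m0) (C1 := C1) (H := H) hA hH0 (M + A + 1) (by omega)
      htpos (hn0 t n (hnt _ (by omega))) (fun i : Fin t => K i)
      (fun i j hij => hKgap _ _ hij (hle j)) (fun i => hKb _ (hle i)) (fun i => c (K i))
      (fun i => c0 (K i)) a haA (fun i => hKa _ (hle i)) (fun i => hKne _ (hle i))
      (fun i x hx => hCk _ (hB _ (hKB _ (hle i)).1).1.2 _ (hc4 _ (hKB _ (hle i)).1 x hx)) hHC1'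
      (fun i => hc6 _ (hKB _ (hle i)).1) (fun i => (hA1 i (by have := i.2; omega)).1)
      (fun i => (hA1 i (by have := i.2; omega)).2)

end Pool.Agent.X90.DF
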