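import Pool.Agent.X90.DF.Tr

/-!
# Double zeta values: the algebra
-/

set_option autoImplicit false

namespace Pool.Agent.X90.DF

open Finset Pool.Agent.Y760.ZF
open Pool.Agent.Y760.ZG (mz)
open Pool.Agent.X90.DC (Zt Zt_mul Zt_nil Zt_one powers)

/-- the formal sum of words of length two and one -/
noncomputable def Xf (k : ℕ) (d : ℕ → ℤ) (e : ℤ) : List ℕ →₀ ℤ :=
  ∑ x ∈ Ioo 0 k, Finsupp.single [x, k - x] (d x) + Finsupp.single [k] e

lemma vl_Xf {A : Type} [CommRing A] (Z : List ℕ → A) (k : ℕ) (d : ℕ → ℤ) (e : ℤ) :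
    vl Z (Xf k d e) = ∑ x ∈ Ioo 0 k, (d x : A) * Z [x, k - x] + (e : A) * Z [k] := by
  rw [vl, Xf, map_add, map_sum, Finsupp.linearCombination_single, zsmul_eq_mul]
  congr 1
  exact sum_congr rfl fun x _ => by rw [Finsupp.linearCombination_single, zsmul_eq_mul]

lemma vl_single {A : Type} [CommRing A] (Z : List ℕ → A) (w : List ℕ) (c : ℤ) :
    vl Z (Finsupp.single w c) = (c : A) * Z w := by
  rw [vl, Finsupp.linearCombination_single, zsmul_eq_mul]

lemma Xf_apply (k : ℕ) (d : ℕ → ℤ) (e : ℤ) (w : List ℕ) : Xf k d e w =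
    ∑ x ∈ Ioo 0 k, (if [x, k - x] = w then d x else 0) + (if [k] = w then e else 0) := by
  classical
  rw [Xf, Finsupp.add_apply, Finsupp.finsetSum_apply, Finsupp.single_apply]
  simp only [Finsupp.single_apply]

lemma supp_Xf (k : ℕ) (d : ℕ → ℤ) (e : ℤ) : (Xf k d e).support ⊆
    insert [k] (((Ioo 0 k).filter fun x => d x ≠ 0).image fun x => [x, k - x]) := by
  classical
  intro w hw
  by_contra hcon
  rw [mem_insert, mem_image] at hcon
  push Not at hcon
  obtain ⟨h1, h2⟩ := hcon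
  rw [Finsupp.mem_support_iff, Xf_apply] at hw
  apply hw
  rw [if_neg fun h => h1 h.symm, add_zero]
  refine sum_eq_zero fun x hx => ?_
  by_cases h3 : [x, k - x] = w
  · rw [if_pos h3]
    by_contra h4
    exact h2 x (mem_filter.2 ⟨hx, h4⟩) h3
  · rw [if_neg h3]

lemma card_Xf (k : ℕ) (d : ℕ → ℤ) (e : ℤ) : (Xf k d e).support.card ≤
    ((Ioo 0 k).filter fun x => d x ≠ 0).card + 1 :=
  (card_le_card (supp_Xf k d e)).trans ((card_insert_le _ _).trans
    (Nat.add_le_add_right card_image_le 1))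

lemma abs_Xf (k : ℕ) (d : ℕ → ℤ) (e : ℤ) (w : List ℕ) {H : ℝ} (hH : 0 ≤ H)
    (hd : ∀ x ∈ Ioo 0 k, |(d x : ℝ)| ≤ H) (he : |(e : ℝ)| ≤ H) : |((Xf k d e w : ℤ) : ℝ)| ≤ H := by
  classical
  rw [Xf_apply]
  by_cases h1 : [k] = w
  · rw [if_pos h1]
    have h2 : ∑ x ∈ Ioo 0 k, (if [x, k - x] = w then d x else 0) = 0 := by
      refine sum_eq_zero fun x _ => ?_
      rw [if_neg]
      rw [← h1]
      simp
    rw [h2, zero_add]
    exact he
  · rw [if_neg h1, add_zero]
    by_cases h2 : ∃ x ∈ Ioo 0 k, [x, k - x] = w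
    · obtain ⟨x, hx, rfl⟩ := h2
      rw [sum_eq_single x]
      · rw [if_pos rfl]
        exact hd x hx
      · intro y _ hy
        rw [if_neg]
        intro h3
        rw [List.cons.injEq] at h3
        exact hy h3.1
      · intro h3
        exact absurd hx h3
    · push Not at h2
      rw [sum_eq_zero fun x hx => if_neg (h2 x hx), Int.cast_zero, abs_zero]
      exact hH

lemma refl_sum {A : Type} [AddCommMonoid A] (k : ℕ) (f : ℕ → A) :
    ∑ x ∈ Ioo 0 k, f (k - x) = ∑ x ∈ Ioo 0 k, f x := by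
  refine sum_nbij' (fun x => k - x) (fun x => k - x) ?_ ?_ ?_ ?_ ?_
  · intro x hx
    rw [mem_Ioo] at hx ⊢
    omega
  · intro x hx
    rw [mem_Ioo] at hx ⊢
    omega
  · intro x hx
    rw [mem_Ioo] at hx
    omega
  · intro x hx
    rw [mem_Ioo] at hx
    omega
  · intro x hx
    rfl

lemma Zt_cons_one (a : ℂ) (t : List ℂ) (m : ℕ) : Zt (a :: t) [m] = Zt t [m] + a ^ m := by
  rw [Zt, Zt_nil, mul_one]

/-- **symmetry** -/
lemma sym_of (k : ℕ) (d : ℕ → ℤ) (e : ℤ) (E : Finset ℕ) (τ : ℕ → ℂ) (hE : ∀ m ∈ E, 1 ≤ m)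
    (H : ∀ ts : List ℂ, (∀ m ∈ E, Zt ts [m] = τ m) → vl (Zt ts) (Xf k d e) = 0) :
    ∀ x ∈ Ioo 0 k, d x = d (k - x) := by
  classical
  have h1 : ∀ z : ℂ, ∑ x ∈ Ioo 0 k, (d x : ℂ) * (z ^ x - z ^ (k - x)) = 0 := by
    intro z
    obtain ⟨B, hB⟩ := powers E (fun m => τ m - z ^ m - 1) hE
    have hZB : ∀ m ∈ E, Zt B [m] = τ m - z ^ m - 1 := fun m hm => by
      rw [Zt_one]
      exact hB m hm
    have g1 := H (z :: 1 :: B) (fun m hm => by
      rw [Zt_cons_one, Zt_cons_one, hZB m hm, one_pow]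
      ring)
    have g2 := H (1 :: z :: B) (fun m hm => by
      rw [Zt_cons_one, Zt_cons_one, hZB m hm, one_pow]
      ring)
    rw [vl_Xf] at g1 g2
    have g3 : Zt (z :: 1 :: B) [k] = Zt (1 :: z :: B) [k] := by
      rw [Zt_cons_one, Zt_cons_one, Zt_cons_one, Zt_cons_one]
      ring
    rw [g3] at g1
    have g4 : ∑ x ∈ Ioo 0 k, (d x : ℂ) * Zt (z :: 1 :: B) [x, k - x] -
        ∑ x ∈ Ioo 0 k, (d x : ℂ) * Zt (1 :: z :: B) [x, k - x] = 0 := by
      linear_combination g1 - g2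
    rw [← g4, ← sum_sub_distrib]
    refine sum_congr rfl fun x _ => ?_
    rw [← mul_sub]
    congr 1
    simp only [Zt, Zt_nil, one_pow]
    ring
  set P : Polynomial ℂ := ∑ x ∈ Ioo 0 k, Polynomial.C (d x : ℂ) *
    (Polynomial.X ^ x - Polynomial.X ^ (k - x)) with hP
  have h2 : P = 0 := by
    refine Polynomial.funext fun z => ?_
    rw [hP, Polynomial.eval_finsetSum, Polynomial.eval_zero, ← h1 z]
    refine sum_congr rfl fun x _ => ?_
    simp
  intro x0 hx0
  have h3 : P.coeff x0 = d x0 - d (k - x0) := by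
    have e1 : P = ∑ x ∈ Ioo 0 k, Polynomial.C (d x : ℂ) * Polynomial.X ^ x -
        ∑ x ∈ Ioo 0 k, Polynomial.C (d (k - x) : ℂ) * Polynomial.X ^ x := by
      rw [hP]
      have e2 : ∑ x ∈ Ioo 0 k, Polynomial.C (d (k - x) : ℂ) * Polynomial.X ^ x =
          ∑ x ∈ Ioo 0 k, Polynomial.C (d x : ℂ) * Polynomial.X ^ (k - x) := by
        rw [← refl_sum k fun x => Polynomial.C (d (k - x) : ℂ) * Polynomial.X ^ x]
        refine sum_congr rfl fun x hx => ?_
        rw [mem_Ioo] at hx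
        rw [Nat.sub_sub_self hx.2.le]
      rw [e2, ← sum_sub_distrib]
      exact sum_congr rfl fun x _ => by ring
    rw [e1, Polynomial.coeff_sub, Polynomial.finsetSum_coeff, Polynomial.finsetSum_coeff]
    congr 1
    · rw [sum_eq_single x0]
      · rw [Polynomial.coeff_C_mul, Polynomial.coeff_X_pow, if_pos rfl, mul_one]
      · intro x _ hx
        rw [Polynomial.coeff_C_mul, Polynomial.coeff_X_pow, if_neg fun h => hx h.symm, mul_zero]
      · intro h
        exact absurd hx0 h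
    · rw [sum_eq_single x0]
      · rw [Polynomial.coeff_C_mul, Polynomial.coeff_X_pow, if_pos rfl, mul_one]
      · intro x _ hx
        rw [Polynomial.coeff_C_mul, Polynomial.coeff_X_pow, if_neg fun h => hx h.symm, mul_zero]
      · intro h
        exact absurd hx0 h
  rw [h2, Polynomial.coeff_zero] at h3
  have h4 : (d x0 : ℂ) = d (k - x0) := by linear_combination -h3
  exact_mod_cast h4

/-- **vanishing** -/
lemma zero_of (k : ℕ) (hk : 1 ≤ k) (d : ℕ → ℤ) (e : ℤ) (E : Finset ℕ) (τ : ℕ → ℂ)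
    (hE : ∀ m ∈ E, 1 ≤ m) (hkE : k ∉ E) (hdE : ∀ x ∈ Ioo 0 k, x ∈ E → d x = 0)
    (H : ∀ ts : List ℂ, (∀ m ∈ E, Zt ts [m] = τ m) → vl (Zt ts) (Xf k d e) = 0)
    (hs : ∀ x ∈ Ioo 0 k, d x = d (k - x)) :
    (∀ x ∈ Ioo 0 k, d x = 0) ∧ e = 0 := by
  classical
  -- the value in terms of power sums
  have hval : ∀ ts : List ℂ, 2 * vl (Zt ts) (Xf k d e) =
      ∑ x ∈ Ioo 0 k, (d x : ℂ) * (Zt ts [x] * Zt ts [k - x]) +
        (2 * (e : ℂ) - ∑ x ∈ Ioo 0 k, (d x : ℂ)) * Zt ts [k] := by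
    intro ts
    have h1 : ∀ x ∈ Ioo 0 k, Zt ts [x] * Zt ts [k - x] =
        Zt ts [x, k - x] + Zt ts [k - x, x] + Zt ts [k] := by
      intro x hx
      rw [mem_Ioo] at hx
      have h2 : x + (k - x) = k := by omega
      rw [Zt_mul]
      simp [sti, h2]
      ring
    have h3 : ∑ x ∈ Ioo 0 k, (d x : ℂ) * Zt ts [k - x, x] =
        ∑ x ∈ Ioo 0 k, (d x : ℂ) * Zt ts [x, k - x] := by
      rw [← refl_sum k fun x => (d x : ℂ) * Zt ts [x, k - x]]
      refine sum_congr rfl fun x hx => ?_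
      have h4 := hs x hx
      rw [mem_Ioo] at hx
      rw [Nat.sub_sub_self hx.2.le, h4]
    have h5 : ∑ x ∈ Ioo 0 k, (d x : ℂ) * (Zt ts [x] * Zt ts [k - x]) =
        ∑ x ∈ Ioo 0 k, (d x : ℂ) * Zt ts [x, k - x] +
        ∑ x ∈ Ioo 0 k, (d x : ℂ) * Zt ts [k - x, x] + (∑ x ∈ Ioo 0 k, (d x : ℂ)) * Zt ts [k] := by
      rw [sum_mul, ← sum_add_distrib, ← sum_add_distrib]
      exact sum_congr rfl fun x hx => by rw [h1 x hx]; ring
    rw [vl_Xf, h5, h3]
    ring
  -- prescribed power sums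
  have hpres : ∀ g : ℕ → ℂ, ∑ x ∈ Ioo 0 k, (d x : ℂ) * (g x * g (k - x)) +
      (2 * (e : ℂ) - ∑ x ∈ Ioo 0 k, (d x : ℂ)) * g k = 0 := by
    intro g
    obtain ⟨B, hB⟩ := powers (E ∪ Ioc 0 k) (fun m => if m ∈ E then τ m else g m) (fun m hm => by
      rw [mem_union] at hm
      rcases hm with hm | hm
      · exact hE m hm
      · exact (mem_Ioc.1 hm).1)
    have h1 := H B (fun m hm => by
      rw [Zt_one, hB m (mem_union_left _ hm), if_pos hm])
    have h2 := hval B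
    rw [h1, mul_zero] at h2
    rw [h2]
    have h3 : Zt B [k] = g k := by
      rw [Zt_one, hB k (mem_union_right _ (mem_Ioc.2 ⟨by omega, le_rfl⟩)), if_neg hkE]
    rw [h3]
    congr 1
    refine sum_congr rfl fun x hx => ?_
    by_cases hdx : d x = 0
    · rw [hdx, Int.cast_zero, zero_mul, zero_mul]
    · have hx' := mem_Ioo.1 hx
      have hxE : x ∉ E := fun h => hdx (hdE x hx h)
      have hkx : k - x ∉ E := by
        intro h
        apply hdx
        rw [hs x hx]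
        exact hdE (k - x) (mem_Ioo.2 ⟨by omega, by omega⟩) h
      rw [Zt_one, hB x (mem_union_right _ (mem_Ioc.2 ⟨hx'.1, hx'.2.le⟩)), if_neg hxE, Zt_one,
        hB (k - x) (mem_union_right _ (mem_Ioc.2 ⟨by omega, by omega⟩)), if_neg hkx]
  have h1 : 2 * (e : ℂ) - ∑ x ∈ Ioo 0 k, (d x : ℂ) = 0 := by
    have h2 := hpres fun m => if m = k then 1 else 0
    rw [if_pos rfl, mul_one] at h2
    rw [← h2, right_eq_add]
    refine sum_eq_zero fun x hx => ?_
    rw [mem_Ioo] at hx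
    rw [if_neg (by omega), zero_mul, mul_zero]
  have h2 : ∀ x ∈ Ioo 0 k, d x = 0 := by
    intro x0 hx0
    have h3 := hpres fun m => if m = x0 ∨ m = k - x0 then 1 else 0
    rw [h1, zero_mul, add_zero] at h3
    have hx0' := mem_Ioo.1 hx0
    have h4 : ∑ x ∈ Ioo 0 k, (d x : ℂ) * ((if x = x0 ∨ x = k - x0 then (1 : ℂ) else 0) *
        (if k - x = x0 ∨ k - x = k - x0 then (1 : ℂ) else 0)) =
        ∑ x ∈ ({x0, k - x0} : Finset ℕ), (d x0 : ℂ) := by
      symm
      refine sum_subset_zero_on_sdiff (fun x hx => ?_) (fun x hx => ?_) fun x hx => ?_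
      · rw [mem_insert, mem_singleton] at hx
        rw [mem_Ioo]
        omega
      · rw [mem_sdiff, mem_insert, mem_singleton] at hx
        rw [if_neg hx.2, zero_mul, mul_zero]
      · rw [mem_insert, mem_singleton] at hx
        have h5 : k - x = x0 ∨ k - x = k - x0 := by omega
        rw [if_pos hx, if_pos h5, mul_one, mul_one]
        rcases hx with rfl | rfl
        · rfl
        · rw [hs x0 hx0]
    rw [h4, sum_const, nsmul_eq_mul] at h3
    have h5 : (({x0, k - x0} : Finset ℕ).card : ℂ) ≠ 0 := by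
      have : 0 < ({x0, k - x0} : Finset ℕ).card := card_pos.2 ⟨x0, mem_insert_self _ _⟩
      exact_mod_cast this.ne'
    have h6 := (mul_eq_zero.1 h3).resolve_left h5
    exact_mod_cast h6
  refine ⟨h2, ?_⟩
  rw [sum_eq_zero fun x hx => by rw [h2 x hx, Int.cast_zero], sub_zero] at h1
  have h3 : (e : ℂ) = 0 := by
    have : (2 : ℂ) ≠ 0 := two_ne_zero
    exact (mul_eq_zero.1 h1).resolve_left this
  exact_mod_cast h3

/-- the matrix of the relations -/
noncomputable def Em {t : ℕ} (k : Fin (t + 1) → ℕ) (a : Fin t → ℕ) (c : Fin (t + 1) → Fin t → ℤ)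
    (X : Fin (t + 1) → (List ℕ →₀ ℤ)) : Matrix (Fin (t + 1)) (Fin (t + 1)) (List ℕ →₀ ℤ) :=
  fun i => Fin.snoc (fun j : Fin t => Finsupp.single [k i - a j] (c i j)) (X i)

/-- **first stage** -/
lemma stage1 {t : ℕ} (k : Fin (t + 1) → ℕ) (a : Fin t → ℕ) (c : Fin (t + 1) → Fin t → ℤ)
    (hc : ∀ i j, c i j ≠ 0) (X : Fin (t + 1) → (List ℕ →₀ ℤ)) (ts : List ℂ)
    (hdet : (Matrix.of fun i j => vl (Zt ts) (Em k a c X i j)).det = 0)
    (hts : ∀ i j, Zt ts [k i - a j] = if i = j.succ then 1 else 0) :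
    vl (Zt ts) (X 0) = 0 := by
  classical
  obtain ⟨v, hv, hMv⟩ := Matrix.exists_mulVec_eq_zero_iff.2 hdet
  by_contra hX
  have hrow : ∀ i, ∑ j : Fin t, (c i j : ℂ) * (if i = j.succ then 1 else 0) * v j.castSucc +
      vl (Zt ts) (X i) * v (Fin.last t) = 0 := by
    intro i
    have h1 := congrFun hMv i
    rw [Matrix.mulVec, dotProduct, Fin.sum_univ_castSucc] at h1
    simp only [Matrix.of_apply, Em, Fin.snoc_castSucc, Fin.snoc_last, vl_single, hts] at h1
    exact h1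
  have hlast : v (Fin.last t) = 0 := by
    have h1 := hrow 0
    rw [sum_eq_zero fun j _ => by
      rw [if_neg (Fin.succ_ne_zero j).symm, mul_zero, zero_mul], zero_add] at h1
    exact (mul_eq_zero.1 h1).resolve_left hX
  apply hv
  funext j
  refine Fin.lastCases hlast (fun j => ?_) j
  have h1 := hrow j.succ
  rw [hlast, mul_zero, add_zero, sum_eq_single j] at h1
  · rw [if_pos rfl, mul_one] at h1
    refine (mul_eq_zero.1 h1).resolve_left ?_
    exact_mod_cast hc _ _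
  · intro j' _ hj'
    rw [if_neg fun h => hj' (Fin.succ_injective _ h).symm, mul_zero, zero_mul]
  · intro h
    exact absurd (mem_univ _) h

end Pool.Agent.X90.DF
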