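import Pool.Agent.X90.DF.Dz

/-!
# Sparse relations between double zeta values
-/

set_option autoImplicit false

namespace Pool.Agent.X90.DF

open Finset Pool.Agent.Y760.ZF
open Pool.Agent.Y760.ZG (mz)
open Pool.Agent.X90.DB (Ad)
open Pool.Agent.X90.DC (Zt Zt_mul Zt_nil Zt_one powers mz_stuffle)
open Pool.Agent.X90.DD (mz_ne)

/-- weights with a sparse relation -/
def Exc (A M : ℕ) (δ C : ℝ) (k : ℕ) : Prop := ∃ (c : ℕ → ℤ) (c0 : ℤ), (∃ x ∈ Ioo 1 k, c x ≠ 0) ∧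
  ((Ioo 1 k).filter fun x => A < x ∧ c x ≠ 0).card ≤ M ∧
  (∀ x ∈ Ioo 1 k, A < x → (x : ℝ) < δ * k → c x = 0) ∧
  (∀ x ∈ Ioo 1 k, |(c x : ℝ)| ≤ C ^ k) ∧ |(c0 : ℝ)| ≤ C ^ k ∧
  ∑ x ∈ Ioo 1 k, (c x : ℝ) * mz [x, k - x] + c0 * mz [k] = 0

/-- the coefficients after the stuffle product -/
def dd (A k : ℕ) (c : ℕ → ℤ) (x : ℕ) : ℤ :=
  (if A < x then c x else 0) - (if k - x ∈ Icc 2 A then c (k - x) else 0)

/-- the coefficient of `ζ(k)` after the stuffle product -/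
def ee (A : ℕ) (c : ℕ → ℤ) (c0 : ℤ) : ℤ := c0 - ∑ a ∈ Icc 2 A, c a

lemma normal {R : Type} [CommRing R] (Z : List ℕ → R) {A k : ℕ} (hA : 1 ≤ A) (hk : 2 * A + 2 ≤ k)
    (c : ℕ → ℤ) (c0 : ℤ)
    (hZ : ∀ a ∈ Icc 2 A, Z [a] * Z [k - a] = Z [a, k - a] + Z [k - a, a] + Z [k]) :
    ∑ x ∈ Ioo 1 k, (c x : R) * Z [x, k - x] + c0 * Z [k] =
      ∑ a ∈ Icc 2 A, (c a : R) * Z [k - a] * Z [a] + vl Z (Xf k (dd A k c) (ee A c c0)) := by
  classical
  rw [vl_Xf]
  have h1 : ∑ x ∈ Ioo 1 k, (c x : R) * Z [x, k - x] = ∑ x ∈ Icc 2 A, (c x : R) * Z [x, k - x] +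
      ∑ x ∈ Ioo 0 k, (if A < x then (c x : R) * Z [x, k - x] else 0) := by
    rw [← sum_filter]
    have e : Ioo 1 k = Icc 2 A ∪ (Ioo 0 k).filter fun x => A < x := by
      ext x
      rw [mem_union, mem_filter, mem_Icc, mem_Ioo, mem_Ioo]
      omega
    rw [e, sum_union]
    rw [disjoint_left]
    intro x hx hx'
    rw [mem_Icc] at hx
    rw [mem_filter] at hx'
    omega
  have h2 : ∑ x ∈ Ioo 0 k, (if k - x ∈ Icc 2 A then (c (k - x) : R) * Z [x, k - x] else 0) =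
      ∑ a ∈ Icc 2 A, (c a : R) * Z [k - a, a] := by
    rw [← refl_sum k fun x => if k - x ∈ Icc 2 A then (c (k - x) : R) * Z [x, k - x] else 0]
    rw [← sum_filter_add_sum_filter_not (Ioo 0 k) (fun x => x ∈ Icc 2 A)]
    have e : (Ioo 0 k).filter (fun x => x ∈ Icc 2 A) = Icc 2 A := by
      ext x
      rw [mem_filter, mem_Icc, mem_Ioo]
      omega
    rw [e]
    have h3 : ∑ x ∈ (Ioo 0 k).filter (fun x => x ∉ Icc 2 A),
        (if k - (k - x) ∈ Icc 2 A then (c (k - (k - x)) : R) * Z [k - x, k - (k - x)] else 0) =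
        0 := by
      refine sum_eq_zero fun x hx => ?_
      rw [mem_filter, mem_Ioo] at hx
      rw [Nat.sub_sub_self (by omega), if_neg hx.2]
    rw [h3, add_zero]
    refine sum_congr rfl fun x hx => ?_
    have hx' := mem_Icc.1 hx
    rw [Nat.sub_sub_self (by omega), if_pos hx]
  have h3 : ∑ x ∈ Ioo 0 k, ((dd A k c x : ℤ) : R) * Z [x, k - x] =
      ∑ x ∈ Ioo 0 k, (if A < x then (c x : R) * Z [x, k - x] else 0) -
      ∑ a ∈ Icc 2 A, (c a : R) * Z [k - a, a] := by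
    rw [← h2, ← sum_sub_distrib]
    refine sum_congr rfl fun x _ => ?_
    rw [dd]
    split_ifs <;> push_cast <;> ring
  have h4 : ∑ x ∈ Icc 2 A, (c x : R) * Z [x, k - x] = ∑ a ∈ Icc 2 A, (c a : R) * Z [k - a] * Z [a] -
      ∑ a ∈ Icc 2 A, (c a : R) * Z [k - a, a] - (∑ a ∈ Icc 2 A, (c a : R)) * Z [k] := by
    rw [sum_mul, ← sum_sub_distrib, ← sum_sub_distrib]
    refine sum_congr rfl fun a ha => ?_
    have := hZ a ha
    linear_combination (-(c a : R)) * this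
  rw [h1, h3, h4, ee]
  push_cast
  ring

lemma strict_gap {m : ℕ} (f : Fin m ↪o ℕ) : ∀ (g : ℕ) (i j : Fin m), (i : ℕ) + g = j →
    f i + g ≤ f j := by
  intro g
  induction g with
  | zero =>
    intro i j h
    have : i = j := Fin.ext (by omega)
    rw [this]
    omega
  | succ g ih =>
    intro i j h
    have hj : (j : ℕ) - 1 < m := by omega
    have h1 := ih i ⟨j - 1, hj⟩ (by simp only; omega)
    have h2 : f ⟨j - 1, hj⟩ < f j := f.strictMono (by
      rw [Fin.lt_def]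
      simp only
      omega)
    omega

/-- the row identity -/
lemma row_id {A k : ℕ} (hA : 1 ≤ A) (hk : 2 * A + 2 ≤ k) (c : ℕ → ℤ) (c0 : ℤ) {t : ℕ}
    (a : Fin t ↪o ℕ) (ha : ∀ x ∈ Icc 2 A, c x ≠ 0 → ∃ j, a j = x) (haA : ∀ j, a j ∈ Icc 2 A)
    (h : ∑ x ∈ Ioo 1 k, (c x : ℝ) * mz [x, k - x] + c0 * mz [k] = 0) :
    ∑ j, (c (a j) : ℝ) * mz [k - a j] * mz [a j] + vl mz (Xf k (dd A k c) (ee A c c0)) = 0 := by
  classical
  rw [normal mz hA hk c c0 (fun x hx => by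
    have hx' := mem_Icc.1 hx
    rw [mz_stuffle [x] [k - x] ⟨hx'.1, by simp⟩ ⟨by omega, by simp⟩]
    have e : x + (k - x) = k := by omega
    simp [sti, e]
    ring)] at h
  rw [← h]
  congr 1
  have e : ∑ j, (c (a j) : ℝ) * mz [k - a j] * mz [a j] =
      ∑ x ∈ univ.image a, (c x : ℝ) * mz [k - x] * mz [x] := by
    rw [sum_image fun i _ j _ h => a.injective h]
  rw [e]
  refine sum_subset (fun x hx => ?_) fun x hx hx' => ?_
  · rw [mem_image] at hx
    obtain ⟨j, -, rfl⟩ := hx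
    exact haA j
  · have : c x = 0 := by
      by_contra h0
      obtain ⟨j, hj⟩ := ha x hx h0
      exact hx' (mem_image.2 ⟨j, mem_univ _, hj⟩)
    rw [this, Int.cast_zero, zero_mul, zero_mul]

/-- the support after the stuffle product -/
lemma card_dd {A k M : ℕ} (hA : 1 ≤ A) (c : ℕ → ℤ)
    (hM : ((Ioo 1 k).filter fun x => A < x ∧ c x ≠ 0).card ≤ M) :
    ((Ioo 0 k).filter fun x => dd A k c x ≠ 0).card ≤ M + A := by
  classical
  have h1 : ((Ioo 0 k).filter fun x => dd A k c x ≠ 0) ⊆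
      ((Ioo 1 k).filter fun x => A < x ∧ c x ≠ 0) ∪ (Icc 2 A).image fun a => k - a := by
    intro x hx
    rw [mem_filter, mem_Ioo] at hx
    rw [mem_union, mem_filter, mem_Ioo, mem_image]
    obtain ⟨hx1, hx2⟩ := hx
    rw [dd] at hx2
    by_cases h3 : k - x ∈ Icc 2 A
    · right
      exact ⟨k - x, h3, by omega⟩
    · left
      rw [if_neg h3, sub_zero] at hx2
      by_cases h4 : A < x
      · rw [if_pos h4] at hx2
        exact ⟨by omega, h4, hx2⟩
      · rw [if_neg h4] at hx2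
        exact absurd rfl hx2
  refine (card_le_card h1).trans ((card_union_le _ _).trans ?_)
  refine Nat.add_le_add hM (card_image_le.trans ?_)
  rw [Nat.card_Icc]
  omega

end Pool.Agent.X90.DF
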