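import Pool.Agent.X90.DE.Dist3

/-!
# Transfer of relations between products; determinants
-/

set_option autoImplicit false

namespace Pool.Agent.X90.DF

open Finset Pool.Agent.Y760.ZF
open Pool.Agent.Y760.ZG (mz)
open Pool.Agent.X90.DC (Zt Zt_mul Zt_nil)

lemma Zt_prod (ts : List ℂ) (M : List (List ℕ)) :
    (M.map (Zt ts)).prod = ((stil M).map (Zt ts)).sum := by
  induction M with
  | nil => rw [stil]; simp [Zt_nil]
  | cons u M ih =>
    rw [List.map_cons, List.prod_cons, ih, stil]
    generalize stil M = T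
    induction T with
    | nil => simp
    | cons v T ih2 =>
      rw [List.map_cons, List.sum_cons, mul_add, List.flatMap_cons, List.map_append,
        List.sum_append, ih2, Zt_mul]

lemma list_countC (L : List (List ℕ)) (F : List ℕ → ℂ) (s : Finset (List ℕ)) (hs : ∀ w ∈ L, w ∈ s) :
    (L.map F).sum = ∑ w ∈ s, ((L.countP (· = w) : ℕ) : ℂ) * F w := by
  induction L with
  | nil => simp
  | cons a L ih =>
    rw [List.map_cons, List.sum_cons, ih fun w hw => hs w (List.mem_cons_of_mem _ hw)]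
    have h1 : ∀ w, (((a :: L).countP (· = w) : ℕ) : ℂ) * F w =
        ((L.countP (· = w) : ℕ) : ℂ) * F w + if a = w then F w else 0 := by
      intro w
      rw [List.countP_cons]
      by_cases h : a = w
      · simp only [h, decide_true, if_true]
        push_cast
        ring
      · simp only [h, decide_false, if_false, Bool.false_eq_true]
        push_cast
        ring
    simp only [h1]
    rw [Finset.sum_add_distrib, Finset.sum_ite_eq, if_pos (hs a List.mem_cons_self), add_comm]

/-- **transfer of relations between products** -/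
theorem transfer (N d r : ℕ) (κ C : ℝ) : ∃ n0 : ℕ, ∀ n : ℕ, n0 ≤ n → ∀ (I : Type) (s : Finset I),
    s.card ≤ N → ∀ (b : I → ℤ) (L : I → List (List ℕ)),
    (∀ i ∈ s, (L i).length ≤ d ∧ ∀ u ∈ L i, Cl n (κ * n) r u) →
    (∀ i ∈ s, |(b i : ℝ)| ≤ C ^ n) → ∑ i ∈ s, (b i : ℝ) * ((L i).map mz).prod = 0 →
    ∀ ts : List ℂ, ∑ i ∈ s, (b i : ℂ) * ((L i).map (Zt ts)).prod = 0 := by
  classical
  obtain ⟨B, hB, n0, hmain⟩ := mainM (l := 1) (fun _ => 1) (fun _ => isAlgebraic_one)
    (LinearIndependent.of_subsingleton 0 one_ne_zero) N r d κ ((N + 1 : ℝ) * |C|)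
  refine ⟨n0 + 1, fun n hn I s hs b L hL hb hrel ts => ?_⟩
  set T : Finset (List (List ℕ)) := s.image L with hT
  set c : List (List ℕ) → Fin 1 → ℤ := fun M _ => ∑ i ∈ s with L i = M, b i with hc
  have hgroup : ∀ {A : Type} [CommRing A] (F : List (List ℕ) → A),
      ∑ i ∈ s, (b i : A) * F (L i) = ∑ M ∈ T, (c M 0 : A) * F M := by
    intro A _ F
    rw [← sum_fiberwise_of_maps_to (s := s) (t := T) (g := L) fun i hi => mem_image_of_mem _ hi]
    refine sum_congr rfl fun M _ => ?_
    simp only [hc]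
    push_cast
    rw [sum_mul]
    refine sum_congr rfl fun i hi => ?_
    rw [mem_filter] at hi
    rw [hi.2]
  have h1 := hmain n (by omega) T (card_image_le.trans hs) (fun M hM => by
      rw [hT, mem_image] at hM
      obtain ⟨i, hi, rfl⟩ := hM
      exact hL i hi) c (fun M hM _ => by
      simp only [hc]
      push_cast
      calc |∑ i ∈ s with L i = M, (b i : ℝ)| ≤ ∑ i ∈ s with L i = M, |(b i : ℝ)| :=
            abs_sum_le_sum_abs _ _
        _ ≤ ∑ i ∈ s with L i = M, |C| ^ n := by
            refine sum_le_sum fun i hi => (hb i (mem_filter.1 hi).1).trans ?_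
            exact (le_abs_self _).trans (abs_pow _ _).le
        _ = ((s.filter fun i => L i = M).card : ℝ) * |C| ^ n := by
            rw [sum_const, nsmul_eq_mul]
        _ ≤ (N + 1) * |C| ^ n := by
            refine mul_le_mul_of_nonneg_right ?_ (by positivity)
            have : ((s.filter fun i => L i = M).card : ℝ) ≤ N := by
              exact_mod_cast (card_filter_le _ _).trans hs
            linarith
        _ ≤ (N + 1) ^ n * |C| ^ n := by
            refine mul_le_mul_of_nonneg_right ?_ (by positivity)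
            refine le_self_pow₀ ?_ (by omega)
            have : (0 : ℝ) ≤ N := Nat.cast_nonneg _
            linarith
        _ = ((N + 1 : ℝ) * |C|) ^ n := (mul_pow _ _ _).symm)
  have h2 : ∑ M ∈ T, (∑ _j : Fin 1, (1 : ℝ) * c M _j) * (M.map mz).prod = 0 := by
    rw [← hrel, hgroup fun M => (M.map mz).prod]
    refine sum_congr rfl fun M _ => ?_
    rw [Fin.sum_univ_one, one_mul]
  rcases h1 with ⟨h3, -⟩ | h3
  · rw [hgroup fun M => (M.map (Zt ts)).prod]
    set La : Finset (List ℕ) := T.biUnion fun M => (stil M).toFinset with hLa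
    have h4 : ∀ M ∈ T, (c M 0 : ℂ) * (M.map (Zt ts)).prod =
        ∑ w ∈ La, ((c M 0 * ((stil M).countP (· = w) : ℕ) : ℤ) : ℂ) * Zt ts w := by
      intro M hM
      rw [Zt_prod, list_countC _ _ La fun w hw =>
        mem_biUnion.2 ⟨M, hM, List.mem_toFinset.2 hw⟩, mul_sum]
      refine sum_congr rfl fun w _ => ?_
      push_cast
      ring
    rw [sum_congr rfl h4, sum_comm]
    refine sum_eq_zero fun w _ => ?_
    rw [← sum_mul]
    have h5 := h3 w 0
    unfold co at h5
    have h6 : ∑ M ∈ T, ((c M 0 * ((stil M).countP (· = w) : ℕ) : ℤ) : ℂ) = 0 := by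
      exact_mod_cast h5
    rw [h6, zero_mul]
  · rw [h2, abs_zero] at h3
    exact absurd h3 (not_lt.2 (by positivity))

/-- the value of a formal sum of words -/
noncomputable def vl {A : Type} [CommRing A] (Z : List ℕ → A) (f : List ℕ →₀ ℤ) : A :=
  Finsupp.linearCombination ℤ Z f

lemma vl_eq {A : Type} [CommRing A] (Z : List ℕ → A) (f : List ℕ →₀ ℤ) (F : Finset (List ℕ))
    (hF : f.support ⊆ F) : vl Z f = ∑ w ∈ F, (f w : A) * Z w := by
  rw [vl, Finsupp.linearCombination_apply, Finsupp.sum_of_support_subset _ hF _ (by simp)]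
  exact sum_congr rfl fun w _ => by rw [zsmul_eq_mul]

/-- **transfer of determinants** -/
theorem det_transfer (t m r : ℕ) (κ C : ℝ) : ∃ n0 : ℕ, ∀ n : ℕ, n0 ≤ n →
    ∀ E : Matrix (Fin t) (Fin t) (List ℕ →₀ ℤ), (∀ i j, (E i j).support.card ≤ m) →
    (∀ i j, ∀ w ∈ (E i j).support, Cl n (κ * n) r w) → (∀ i j w, |((E i j) w : ℝ)| ≤ C ^ n) →
    (Matrix.of fun i j => vl mz (E i j)).det = 0 →
    ∀ ts : List ℂ, (Matrix.of fun i j => vl (Zt ts) (E i j)).det = 0 := by
  classical
  obtain ⟨n0, h⟩ := transfer (t.factorial * (t * t * m) ^ t) t r κ (|C| ^ t)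
  refine ⟨n0, fun n hn E hm hE hC hdet ts => ?_⟩
  set F : Finset (List ℕ) := univ.biUnion fun i : Fin t => univ.biUnion fun j : Fin t =>
    (E i j).support with hF
  have hFsub : ∀ i j, (E i j).support ⊆ F := by
    intro i j w hw
    rw [hF, mem_biUnion]
    refine ⟨i, mem_univ _, ?_⟩
    rw [mem_biUnion]
    exact ⟨j, mem_univ _, hw⟩
  have hFcard : F.card ≤ t * t * m := by
    calc F.card ≤ ∑ i : Fin t, (univ.biUnion fun j : Fin t => (E i j).support).card :=
          card_biUnion_le
      _ ≤ ∑ i : Fin t, ∑ j : Fin t, (E i j).support.card := sum_le_sum fun i _ => card_biUnion_le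
      _ ≤ ∑ _i : Fin t, ∑ _j : Fin t, m := sum_le_sum fun i _ => sum_le_sum fun j _ => hm i j
      _ = t * t * m := by simp [mul_assoc]
  have hFC : ∀ w ∈ F, Cl n (κ * n) r w := by
    intro w hw
    rw [hF, mem_biUnion] at hw
    obtain ⟨i, -, hw⟩ := hw
    rw [mem_biUnion] at hw
    obtain ⟨j, -, hw⟩ := hw
    exact hE i j w hw
  set S : Finset (Equiv.Perm (Fin t) × (Fin t → List ℕ)) :=
    univ ×ˢ Fintype.piFinset fun _ : Fin t => F with hS
  have hexp : ∀ {A : Type} [CommRing A] (Z : List ℕ → A),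
      (Matrix.of fun i j => vl Z (E i j)).det = ∑ x ∈ S,
        (((Equiv.Perm.sign x.1 : ℤ) * ∏ i, E (x.1 i) i (x.2 i) : ℤ) : A) *
          ((List.ofFn x.2).map Z).prod := by
    intro A _ Z
    rw [Matrix.det_apply', hS, sum_product]
    refine sum_congr rfl fun σ _ => ?_
    have h1 : ∏ i, (Matrix.of fun i j => vl Z (E i j)) (σ i) i =
        ∏ i, ∑ w ∈ F, (E (σ i) i w : A) * Z w := by
      refine prod_congr rfl fun i _ => ?_
      rw [Matrix.of_apply, vl_eq Z _ F (hFsub _ _)]
    rw [h1, prod_univ_sum, mul_sum]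
    refine sum_congr rfl fun f _ => ?_
    rw [prod_mul_distrib, List.map_ofFn, List.prod_ofFn]
    push_cast
    simp only [Function.comp]
    ring
  rw [hexp] at hdet ⊢
  refine h n hn _ S ?_ (fun x => (Equiv.Perm.sign x.1 : ℤ) * ∏ i, E (x.1 i) i (x.2 i))
    (fun x => List.ofFn x.2) (fun x hx => ?_) (fun x _ => ?_) hdet ts
  · rw [hS, card_product, card_univ, Fintype.card_perm, Fintype.card_fin, Fintype.card_piFinset]
    refine Nat.mul_le_mul_left _ ?_
    rw [prod_const, card_univ, Fintype.card_fin]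
    exact Nat.pow_le_pow_left hFcard _
  · rw [hS, mem_product, Fintype.mem_piFinset] at hx
    refine ⟨by rw [List.length_ofFn], fun u hu => ?_⟩
    rw [List.mem_ofFn] at hu
    obtain ⟨i, rfl⟩ := hu
    exact hFC _ (hx.2 i)
  · have hCn : ∀ i j w, |((E i j) w : ℝ)| ≤ |C| ^ n := fun i j w =>
      (hC i j w).trans ((le_abs_self _).trans (abs_pow _ _).le)
    push_cast
    rw [abs_mul, abs_prod]
    have h1 : |((Equiv.Perm.sign x.1 : ℤ) : ℝ)| = 1 := by
      rcases Int.units_eq_one_or (Equiv.Perm.sign x.1) with h | h <;> rw [h] <;> simp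
    rw [h1, one_mul]
    calc ∏ i, |((E (x.1 i) i (x.2 i) : ℤ) : ℝ)| ≤ ∏ _i : Fin t, |C| ^ n :=
          prod_le_prod (fun _ _ => abs_nonneg _) fun i _ => hCn _ _ _
      _ = (|C| ^ t) ^ n := by
          rw [prod_const, card_univ, Fintype.card_fin, ← pow_mul, ← pow_mul, mul_comm]

end Pool.Agent.X90.DF
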